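import Mathlib
import Pool.Agent.PSH.Pair
import Pool.Agent.TFS2.Res

set_option autoImplicit false

/-!
# A prime at which all cycles of residue classes are superattracting and tame
-/

namespace Pool.Agent.TFS4

open Polynomial NumberField IsDedekindDomain
open scoped WithZero
open Pool.Agent.PNH (Tup app mp IsMor)
open Pool.Agent.TameArb (PosDens ph Good GP ph_eq_eval)
open Pool.Agent.AAP (wd nv Cg PerMod SAt near IntT fm)
open Pool.Agent.PSH.PairA (pr hom_pr isMor_pr iter_pr good_pr)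

section Alg

variable {k : Type} [Field k]

/-- evaluation of the pair of forms at polynomials -/
theorem app_prC (φ a : k[X]) : app (mp C (pr φ)) ![a, 1] = ![φ.comp a, 1] := by
  funext i
  fin_cases i
  · change MvPolynomial.eval ![a, 1]
      (MvPolynomial.map C (fm fun j : Fin (φ.natDegree + 1) => φ.coeff j)) = φ.comp a
    unfold fm
    rw [map_sum, map_sum, comp, eval₂_eq_sum_range,
      ← Fin.sum_univ_eq_sum_range (fun i => C (φ.coeff i) * a ^ i)]
    refine Finset.sum_congr rfl fun i _ => ?_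
    simp
  · change MvPolynomial.eval ![a, 1] (MvPolynomial.map C (MvPolynomial.X 1 ^ φ.natDegree)) = 1
    simp

theorem iter_prC (φ a : k[X]) (n : ℕ) :
    (app (mp C (pr φ)))^[n] ![a, 1] = ![((φ.comp)^[n] X).comp a, 1] := by
  induction n with
  | zero => simp
  | succ n ih =>
    rw [Function.iterate_succ_apply', ih, app_prC, Function.iterate_succ_apply', comp_assoc]

variable {v : Valuation k ℤᵐ⁰}

theorem sat_aff {φ : k[X]} {x : k} (hx : v x ≤ 1) {N e : ℕ}
    (h1 : ∀ j < e, v ((((φ.comp)^[N] X).comp (X + C x) - C x).coeff j) < 1)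
    (h2 : v ((((φ.comp)^[N] X).comp (X + C x) - C x).coeff e) = 1) :
    SAt v (pr φ) ![x, 1] N e := by
  have key : (wd (near (pr φ) N ![x, 1] ![1, 0]) fun i => C ((![x, 1] : Fin 2 → k) i)) =
      ((φ.comp)^[N] X).comp (X + C x) - C x := by
    have e1 : (fun i => C ((![x, 1] : Fin 2 → k) i) + X * C ((![1, 0] : Fin 2 → k) i)) =
        ![X + C x, 1] := by
      funext i
      fin_cases i
      · simp [add_comm]
      · simp
    unfold near
    rw [e1, iter_prC]
    unfold wd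
    simp
  refine ⟨![x, 1], ![1, 0], ?_, ?_, ?_, ?_, ?_, ?_⟩
  · simp [wd]
  · unfold nv
    simp [hx]
  · unfold nv
    simp
  · simp [wd]
  · intro j hj
    rw [key]
    exact h1 j hj
  · rw [key]
    exact h2

/-- polynomials with integral coefficients -/
def IP (v : Valuation k ℤᵐ⁰) : Subring k[X] where
  carrier := {P | ∀ m, v (P.coeff m) ≤ 1}
  mul_mem' := by
    intro a b ha hb m
    rw [coeff_mul]
    refine Valuation.map_sum_le _ fun x _ => ?_
    rw [map_mul]
    exact mul_le_one' (ha _) (hb _)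
  one_mem' := by
    intro m
    rw [coeff_one]
    split_ifs <;> simp
  add_mem' := by
    intro a b ha hb m
    rw [coeff_add]
    exact Valuation.map_add_le _ (ha m) (hb m)
  zero_mem' := by
    intro m
    simp
  neg_mem' := by
    intro a ha m
    rw [coeff_neg, Valuation.map_neg]
    exact ha m

theorem ip_C {a : k} (ha : v a ≤ 1) : (C a : k[X]) ∈ IP v := by
  intro m
  rw [coeff_C]
  split_ifs
  · exact ha
  · simp

theorem ip_X : (X : k[X]) ∈ IP v := by
  intro m
  rw [coeff_X]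
  split_ifs <;> simp

theorem sat_inf {φ : k[X]} (hG : Good v φ) {x : k} (hx : 1 < v x) :
    SAt v (pr φ) ![x, 1] 1 φ.natDegree := by
  have hx0 : x ≠ 0 := by
    rintro rfl
    rw [map_zero] at hx
    exact absurd hx (not_lt.2 zero_le_one)
  obtain ⟨g, hg⟩ : ∃ g, g = x⁻¹ := ⟨_, rfl⟩
  have hxg : x * g = 1 := by rw [hg]; exact mul_inv_cancel₀ hx0
  have hvg : v g < 1 := by
    rw [hg, map_inv₀]
    exact inv_lt_one_of_one_lt₀ hx
  obtain ⟨A, hA⟩ : ∃ A : k[X], A = app (mp C (pr φ)) ![1, X + C g] 0 := ⟨_, rfl⟩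
  have hA1 : app (mp C (pr φ)) ![1, X + C g] 1 = (X + C g) ^ φ.natDegree := by
    change MvPolynomial.eval ![1, X + C g]
      (MvPolynomial.map C (MvPolynomial.X 1 ^ φ.natDegree)) = _
    simp
  have hAI : A ∈ IP v := by
    rw [hA]
    change MvPolynomial.eval ![1, X + C g]
      (MvPolynomial.map C (fm fun j : Fin (φ.natDegree + 1) => φ.coeff j)) ∈ IP v
    unfold fm
    rw [map_sum, map_sum]
    refine Subring.sum_mem _ fun i _ => ?_
    have e : MvPolynomial.eval ![1, X + C g] (MvPolynomial.map C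
        (MvPolynomial.C (φ.coeff i) * MvPolynomial.X 0 ^ (i : ℕ) *
          MvPolynomial.X 1 ^ (φ.natDegree - (i : ℕ)))) =
        C (φ.coeff i) * (X + C g) ^ (φ.natDegree - (i : ℕ)) := by
      simp
    rw [e]
    exact Subring.mul_mem _ (ip_C (hG.int _))
      (Subring.pow_mem _ (Subring.add_mem _ ip_X (ip_C hvg.le)) _)
  have key : (wd (near (pr φ) 1 ![1, g] ![0, 1]) fun i => C ((![1, g] : Fin 2 → k) i)) =
      C g * A - (X + C g) ^ φ.natDegree := by
    have e1 : (fun i => C ((![1, g] : Fin 2 → k) i) + X * C ((![0, 1] : Fin 2 → k) i)) =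
        ![1, X + C g] := by
      funext i
      fin_cases i
      · simp
      · simp [add_comm]
    unfold near
    rw [e1, Function.iterate_one]
    unfold wd
    rw [hA1, ← hA]
    simp [mul_comm]
  have hcA : ∀ j, v ((C g * A).coeff j) < 1 := by
    intro j
    rw [coeff_C_mul, map_mul]
    exact mul_lt_one_of_lt_of_le hvg (hAI j)
  refine ⟨![1, g], ![0, 1], ?_, ?_, ?_, ?_, ?_, ?_⟩
  · simp [wd, hxg]
  · unfold nv
    simp [hvg.le]
  · unfold nv
    simp
  · simp [wd]
  · intro j hj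
    rw [key, coeff_sub, coeff_X_add_C_pow]
    refine lt_of_le_of_lt (Valuation.map_sub _ _ _) (max_lt (hcA j) ?_)
    rw [map_mul, map_pow]
    refine mul_lt_one_of_lt_of_le (pow_lt_one₀ zero_le hvg (by omega)) ?_
    exact Pool.Agent.TameArb.natCast_le _
  · rw [key, coeff_sub, coeff_X_add_C_pow, Nat.sub_self, pow_zero, one_mul, Nat.choose_self,
      Nat.cast_one, Valuation.map_sub_swap, Valuation.map_sub_eq_of_lt_left _
      (by rw [map_one]; exact hcA _), map_one]

theorem ph_le {φ : k[X]} (hG : Good v φ) {x : k} (hx : v x ≤ 1) (n : ℕ) :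
    v ((ph φ)^[n] x) ≤ 1 := by
  induction n with
  | zero => exact hx
  | succ n ih =>
    rw [Function.iterate_succ_apply', ph_eq_eval]
    exact Pool.Agent.TameArb.eval_le hG.int ih

theorem nv_one {x : k} (hx : v x ≤ 1) : nv v ![x, 1] = 1 := by
  unfold nv
  simp [hx]

/-- periodicity modulo the prime, in projective and in affine terms -/
theorem per_aff {φ : k[X]} (hG : Good v φ) {x : k} (hx : v x ≤ 1)
    (h : PerMod v (pr φ) ![x, 1]) : ∃ n, 0 < n ∧ v ((fun y => φ.eval y)^[n] x - x) < 1 := by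
  obtain ⟨n, hn, h⟩ := h
  refine ⟨n, hn, ?_⟩
  unfold Cg at h
  rw [iter_pr, nv_one hx, nv_one (ph_le hG hx n), one_mul] at h
  have e : AAP.wd ![(ph φ)^[n] x, 1] ![x, 1] = (ph φ)^[n] x - x := by
    simp [AAP.wd]
  rw [e] at h
  have e2 : (ph φ : k → k) = fun y => φ.eval y := by
    funext y
    exact ph_eq_eval φ y
  rwa [e2] at h

end Alg

/-- superattracting cycles -/
theorem infinite_sup {K : Type} [Field K] [NumberField K] {φ : K[X]} (hd : 2 ≤ φ.natDegree)
    (v : HeightOneSpectrum (𝓞 K)) (hG : Good (v.valuation K) φ)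
    (hvd : v.valuation K (φ.natDegree : K) = 1)
    (h : ∀ x : K, v.valuation K x ≤ 1 →
      (∃ n, 0 < n ∧ v.valuation K ((fun y => φ.eval y)^[n] x - x) < 1) →
      ∃ N e : ℕ, 0 < N ∧ 2 ≤ e ∧ v.valuation K (e : K) = 1 ∧
        (∀ j < e, v.valuation K ((((φ.comp)^[N] X).comp (X + C x) - C x).coeff j) < 1) ∧
        v.valuation K ((((φ.comp)^[N] X).comp (X + C x) - C x).coeff e) = 1)
    (Γ : Finset K) (hΓ : ∀ γ ∈ Γ, ∀ n, 0 < n → (ph φ)^[n] γ ≠ γ) : (GP φ Γ).Infinite := by
  obtain ⟨p, hp, hpv⟩ := Pool.Agent.TameArb.exists_char v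
  have hpe : ∀ e : ℕ, v.valuation K (e : K) = 1 → ¬ p ∣ e := by
    rintro e he ⟨m, rfl⟩
    rw [Nat.cast_mul, map_mul] at he
    exact absurd he (mul_lt_one_of_lt_of_le hpv (Pool.Agent.TameArb.natCast_le _)).ne
  let ι : K ↪ (Fin 2 → K) := ⟨fun γ => ![γ, 1], fun a b hab => by simpa using congrFun hab 0⟩
  have hGp := good_pr hd hG
  refine Pool.Agent.TFS2.infinite_of_pr hd Γ (Γ.map ι)
    (fun γ hγ => Finset.mem_map.mpr ⟨γ, hγ, rfl⟩) ?_
  refine AAP.dens_sa hd (isMor_pr φ hd) v hGp hp hpv _ ?_ ?_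
  · intro x hx
    obtain ⟨γ, -, rfl⟩ := Finset.mem_map.mp hx
    intro h
    exact one_ne_zero (congrFun h 1)
  · intro x hx
    obtain ⟨γ, hγ, rfl⟩ := Finset.mem_map.mp hx
    have hnp : ¬ AAP.Periodic (pr φ) (![γ, 1] : Fin 2 → K) := by
      rintro ⟨n, hn, hper⟩
      rw [iter_pr] at hper
      refine hΓ γ hγ n hn ?_
      have e : AAP.wd ![(ph φ)^[n] γ, 1] ![γ, 1] = (ph φ)^[n] γ - γ := by
        simp [AAP.wd]
      rw [e] at hper
      exact sub_eq_zero.mp hper
    change ¬ PerMod (v.valuation K) (pr φ) ![γ, 1] ∨ (¬ AAP.Periodic (pr φ) ![γ, 1] ∧ ∃ N e,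
      0 < N ∧ 2 ≤ e ∧ ¬ p ∣ e ∧ SAt (v.valuation K) (pr φ) ![γ, 1] N e)
    rcases lt_or_ge 1 (v.valuation K γ) with h1 | h1
    · exact Or.inr ⟨hnp, 1, φ.natDegree, one_pos, hd, hpe _ hvd, sat_inf hG h1⟩
    · by_cases hper : PerMod (v.valuation K) (pr φ) ![γ, 1]
      · obtain ⟨N, e, hN, he, hve, h2, h3⟩ := h γ h1 (per_aff hG h1 hper)
        exact Or.inr ⟨hnp, N, e, hN, he, hpe e hve, sat_aff h1 h2 h3⟩
      · exact Or.inl hper

end Pool.Agent.TFS4
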