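import Pool.Agent.Arb.Rat2
import Pool.Agent.NDE.Pol

/-!
# The maps `x ^ d + c` at a prime `q`, if `q - 1` divides `d - 1` or `d`
-/

set_option autoImplicit false

open IsDedekindDomain NumberField Polynomial

namespace Pool.Agent.TFS4

/-- rational numbers integral at `q` are congruent to integers -/
theorem exists_int_near {q : ℕ} (hq : q.Prime) {v : HeightOneSpectrum (𝓞 ℚ)}
    (hlt : ∀ z : ℤ, (q : ℤ) ∣ z → v.valuation ℚ (z : ℚ) < 1)
    (h2 : ∀ z : ℤ, ¬ (q : ℤ) ∣ z → v.valuation ℚ (z : ℚ) = 1) {x : ℚ}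
    (hx : v.valuation ℚ x ≤ 1) : ∃ m : ℤ, v.valuation ℚ (x - m) < 1 := by
  haveI : Fact q.Prime := ⟨hq⟩
  have hxe : x * (x.den : ℤ) = (x.num : ℤ) := by
    have := Rat.mul_den_eq_num x
    exact_mod_cast this
  have hden : ¬ (q : ℤ) ∣ (x.den : ℤ) := by
    intro hd
    have hn : ¬ (q : ℤ) ∣ x.num := by
      intro hn
      have h5 : q ∣ x.num.natAbs := Int.natCast_dvd.mp hn
      have h6 : q ∣ x.den := by exact_mod_cast hd
      have h7 := Nat.dvd_gcd h5 h6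
      rw [x.reduced] at h7
      exact hq.one_lt.ne' (Nat.dvd_one.mp h7)
    have h8 := Pool.Agent.TameArb.mul_lt_one_aux hx (hlt _ hd)
    rw [← map_mul, hxe, h2 _ hn] at h8
    exact lt_irrefl _ h8
  obtain ⟨b, hb⟩ := ZMod.intCast_surjective (((x.den : ℤ) : ZMod q)⁻¹)
  have hne : ((x.den : ℤ) : ZMod q) ≠ 0 := by
    rw [Ne, ZMod.intCast_zmod_eq_zero_iff_dvd]
    exact hden
  have hdvd : (q : ℤ) ∣ 1 - (x.den : ℤ) * b := by
    rw [← ZMod.intCast_zmod_eq_zero_iff_dvd]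
    push_cast
    have h9 : ((x.den : ℕ) : ZMod q) * (b : ZMod q) = 1 := by
      rw [hb]
      have h10 : (((x.den : ℤ)) : ZMod q) = ((x.den : ℕ) : ZMod q) := by push_cast; rfl
      rw [h10] at hne ⊢
      exact mul_inv_cancel₀ hne
    rw [h9, sub_self]
  refine ⟨x.num * b, ?_⟩
  have e : (x - ((x.num * b : ℤ) : ℚ)) * ((x.den : ℤ) : ℚ) =
      ((x.num : ℤ) : ℚ) * ((1 - (x.den : ℤ) * b : ℤ) : ℚ) := by
    push_cast
    have := Rat.mul_den_eq_num x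
    linear_combination this
  have hint : v.valuation ℚ ((x.num : ℤ) : ℚ) ≤ 1 := by
    by_cases h : (q : ℤ) ∣ x.num
    · exact (hlt _ h).le
    · exact (h2 _ h).le
  have h11 := Pool.Agent.TameArb.mul_lt_one_aux hint (hlt _ hdvd)
  rw [← map_mul, ← e, map_mul, h2 _ hden, mul_one] at h11
  exact h11

theorem prime_facts {q : ℕ} (hq : q.Prime) : ∃ v : HeightOneSpectrum (𝓞 ℚ),
    (∀ z : ℤ, (q : ℤ) ∣ z → v.valuation ℚ (z : ℚ) < 1) ∧
      ∀ z : ℤ, ¬ (q : ℤ) ∣ z → v.valuation ℚ (z : ℚ) = 1 := by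
  obtain ⟨v, h1, h2⟩ := Pool.Agent.Arb.exists_at_prime hq
  have hvq : v.valuation ℚ (q : ℚ) < 1 := by
    rw [h1, ← WithZero.exp_zero, WithZero.exp_lt_exp]
    norm_num
  refine ⟨v, ?_, h2⟩
  rintro z ⟨w, rfl⟩
  have hw : v.valuation ℚ (w : ℚ) ≤ 1 := by
    have h := v.valuation_le_one (K := ℚ) (w : 𝓞 ℚ)
    have e : algebraMap (𝓞 ℚ) ℚ (w : 𝓞 ℚ) = (w : ℚ) := map_intCast (algebraMap (𝓞 ℚ) ℚ) w
    have h' : v.valuation ℚ (algebraMap (𝓞 ℚ) ℚ (w : 𝓞 ℚ)) ≤ 1 := h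
    rwa [e] at h'
  have e : ((((q : ℕ) : ℤ) * w : ℤ) : ℚ) = (w : ℚ) * (q : ℚ) := by push_cast; ring
  rw [e, map_mul]
  exact Pool.Agent.TameArb.mul_lt_one_aux hw hvq

/-- one step of the map on integers approximating points -/
theorem step_near {v : HeightOneSpectrum (𝓞 ℚ)} (hint : ∀ z : ℤ, v.valuation ℚ (z : ℚ) ≤ 1)
    {y : ℚ} {k : ℤ} (h : v.valuation ℚ (y - k) < 1) (d : ℕ) :
    v.valuation ℚ (y ^ d - (k : ℚ) ^ d) < 1 := by
  have hy : v.valuation ℚ y ≤ 1 := by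
    have e : y = (y - k) + k := by ring
    rw [e]
    exact (Valuation.map_add _ _ _).trans (max_le h.le (hint k))
  induction d with
  | zero => simp
  | succ s ih =>
    have e2 : y ^ (s + 1) - (k : ℚ) ^ (s + 1) = y ^ s * (y - k) + (k : ℚ) * (y ^ s - (k : ℚ) ^ s) := by
      ring
    rw [e2]
    refine Valuation.map_add_lt _ ?_ ?_
    · rw [map_mul, map_pow]
      exact Pool.Agent.TameArb.mul_lt_one_aux (pow_le_one₀ zero_le hy) h
    · rw [map_mul]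
      exact Pool.Agent.TameArb.mul_lt_one_aux (hint k) ih

theorem perm_reach {d : ℕ} (hd : 2 ≤ d) (c : ℤ) (q : ℕ) (hq : q.Prime) (hqd : ¬ q ∣ d)
    (hqc : ¬ (q : ℤ) ∣ c) (h : (q - 1) ∣ (d - 1)) :
    ∃ v : HeightOneSpectrum (𝓞 ℚ), v.valuation ℚ (q : ℚ) < 1 ∧ v.valuation ℚ (d : ℚ) = 1 ∧
      ∀ x : ℚ, v.valuation ℚ x ≤ 1 →
        ∃ n, v.valuation ℚ ((fun y => (X ^ d + C (c : ℚ) : ℚ[X]).eval y)^[n] x) < 1 := by
  haveI : Fact q.Prime := ⟨hq⟩
  obtain ⟨v, hlt, h2⟩ := prime_facts hq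
  have hint : ∀ z : ℤ, v.valuation ℚ (z : ℚ) ≤ 1 := by
    intro z
    by_cases hz : (q : ℤ) ∣ z
    · exact (hlt z hz).le
    · exact (h2 z hz).le
  refine ⟨v, ?_, ?_, fun x hx => ?_⟩
  · have := hlt (q : ℤ) dvd_rfl
    exact_mod_cast this
  · have := h2 (d : ℤ) (by
      intro h'
      apply hqd
      exact_mod_cast h')
    exact_mod_cast this
  obtain ⟨m, hm⟩ := exists_int_near hq hlt h2 hx
  -- Fermat
  have hferm : ∀ k : ZMod q, k ^ d = k := by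
    intro k
    obtain ⟨r, hr⟩ := h
    have hd1 : d = (q - 1) * r + 1 := by omega
    by_cases hk : k = 0
    · rw [hk, zero_pow (by omega)]
    · rw [hd1, pow_succ, pow_mul, ZMod.pow_card_sub_one_eq_one hk, one_pow, one_mul]
  have hferm' : ∀ k : ℤ, v.valuation ℚ ((k : ℚ) ^ d - k) < 1 := by
    intro k
    have h3 : (q : ℤ) ∣ k ^ d - k := by
      rw [← ZMod.intCast_zmod_eq_zero_iff_dvd]
      push_cast
      rw [hferm, sub_self]
    have h4 := hlt _ h3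
    push_cast at h4
    exact h4
  have hiter : ∀ n : ℕ, v.valuation ℚ
      ((fun y => (X ^ d + C (c : ℚ) : ℚ[X]).eval y)^[n] x - ((m + n * c : ℤ) : ℚ)) < 1 := by
    intro n
    induction n with
    | zero => simpa using hm
    | succ n ih =>
      rw [Function.iterate_succ_apply']
      set y := (fun y => (X ^ d + C (c : ℚ) : ℚ[X]).eval y)^[n] x with hy
      show v.valuation ℚ ((X ^ d + C (c : ℚ) : ℚ[X]).eval y - ((m + (n + 1 : ℕ) * c : ℤ) : ℚ)) < 1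
      rw [eval_add, eval_pow, eval_X, eval_C]
      have e : y ^ d + (c : ℚ) - ((m + (n + 1 : ℕ) * c : ℤ) : ℚ) =
          (y ^ d - ((m + n * c : ℤ) : ℚ) ^ d) +
            (((m + n * c : ℤ) : ℚ) ^ d - ((m + n * c : ℤ) : ℚ)) := by
        push_cast
        ring
      rw [e]
      exact Valuation.map_add_lt _ (step_near hint ih d) (hferm' _)
  have hc0 : (c : ZMod q) ≠ 0 := by
    rw [Ne, ZMod.intCast_zmod_eq_zero_iff_dvd]
    exact hqc
  refine ⟨(-(m : ZMod q) * (c : ZMod q)⁻¹).val, ?_⟩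
  set n := (-(m : ZMod q) * (c : ZMod q)⁻¹).val with hn
  have h5 : (q : ℤ) ∣ m + n * c := by
    rw [← ZMod.intCast_zmod_eq_zero_iff_dvd]
    push_cast
    rw [hn, ZMod.natCast_zmod_val, mul_assoc, inv_mul_cancel₀ hc0, mul_one, add_neg_cancel]
  have e : (fun y => (X ^ d + C (c : ℚ) : ℚ[X]).eval y)^[n] x =
      ((fun y => (X ^ d + C (c : ℚ) : ℚ[X]).eval y)^[n] x - ((m + n * c : ℤ) : ℚ)) +
        ((m + n * c : ℤ) : ℚ) := by ring
  rw [e]
  exact Valuation.map_add_lt _ (hiter n) (hlt _ h5)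

theorem one_reach {d : ℕ} (hd : 2 ≤ d) (c : ℤ) (q : ℕ) (hq : q.Prime) (hqd : ¬ q ∣ d)
    (hqc : (q : ℤ) ∣ c + 1) (h : (q - 1) ∣ d) :
    ∃ v : HeightOneSpectrum (𝓞 ℚ), v.valuation ℚ (q : ℚ) < 1 ∧ v.valuation ℚ (d : ℚ) = 1 ∧
      ∀ x : ℚ, v.valuation ℚ x ≤ 1 →
        ∃ n, v.valuation ℚ ((fun y => (X ^ d + C (c : ℚ) : ℚ[X]).eval y)^[n] x) < 1 := by
  haveI : Fact q.Prime := ⟨hq⟩
  obtain ⟨v, hlt, h2⟩ := prime_facts hq
  have hint : ∀ z : ℤ, v.valuation ℚ (z : ℚ) ≤ 1 := by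
    intro z
    by_cases hz : (q : ℤ) ∣ z
    · exact (hlt z hz).le
    · exact (h2 z hz).le
  refine ⟨v, ?_, ?_, fun x hx => ?_⟩
  · have := hlt (q : ℤ) dvd_rfl
    exact_mod_cast this
  · have := h2 (d : ℤ) (by
      intro h'
      apply hqd
      exact_mod_cast h')
    exact_mod_cast this
  obtain ⟨m, hm⟩ := exists_int_near hq hlt h2 hx
  by_cases hqm : (q : ℤ) ∣ m
  · refine ⟨0, ?_⟩
    show v.valuation ℚ x < 1
    have e : x = (x - m) + m := by ring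
    rw [e]
    exact Valuation.map_add_lt _ hm (hlt _ hqm)
  refine ⟨1, ?_⟩
  have hm0 : (m : ZMod q) ≠ 0 := by
    rw [Ne, ZMod.intCast_zmod_eq_zero_iff_dvd]
    exact hqm
  have h3 : (q : ℤ) ∣ m ^ d + c := by
    rw [← ZMod.intCast_zmod_eq_zero_iff_dvd] at hqc ⊢
    obtain ⟨r, rfl⟩ := h
    push_cast at hqc ⊢
    rw [pow_mul, ZMod.pow_card_sub_one_eq_one hm0, one_pow, add_comm]
    exact hqc
  rw [Function.iterate_one]
  show v.valuation ℚ ((X ^ d + C (c : ℚ) : ℚ[X]).eval x) < 1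
  rw [eval_add, eval_pow, eval_X, eval_C]
  have e : x ^ d + (c : ℚ) = (x ^ d - (m : ℚ) ^ d) + ((m ^ d + c : ℤ) : ℚ) := by push_cast; ring
  rw [e]
  exact Valuation.map_add_lt _ (step_near hint hm d) (hlt _ h3)

end Pool.Agent.TFS4
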