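import Pool.Agent.Arb.Rat2
import Pool.Agent.TameArb.Basic

/-!
# The maps `x ^ d + c` with `(q - 1) ∣ d` and `q ∣ c + 1` at the prime `q`
-/

set_option autoImplicit false

open IsDedekindDomain NumberField Polynomial

namespace Pool.Agent.TFS4

/-- the integral points are divisible by `q` or mapped to points divisible by `q` -/
theorem unit_reach {d : ℕ} (hd : 2 ≤ d) (c : ℤ) (q : ℕ) (hq : q.Prime) (hqd : ¬ q ∣ d)
    (hqc : (q : ℤ) ∣ c + 1) (h : (q - 1) ∣ d) :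
    ∃ v : HeightOneSpectrum (𝓞 ℚ), v.valuation ℚ (q : ℚ) < 1 ∧ v.valuation ℚ (d : ℚ) = 1 ∧
      ∀ x : ℚ, v.valuation ℚ x ≤ 1 →
        ∃ n, v.valuation ℚ ((fun y => (X ^ d + C (c : ℚ) : ℚ[X]).eval y)^[n] x) < 1 := by
  have hfact : Fact q.Prime := ⟨hq⟩
  obtain ⟨v, h1, h2⟩ := Pool.Agent.Arb.exists_at_prime hq
  have hvq : v.valuation ℚ (q : ℚ) < 1 := by
    rw [h1, ← WithZero.exp_zero, WithZero.exp_lt_exp]
    norm_num
  have hint : ∀ z : ℤ, v.valuation ℚ (z : ℚ) ≤ 1 := by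
    intro z
    have h := v.valuation_le_one (K := ℚ) (z : 𝓞 ℚ)
    have e : algebraMap (𝓞 ℚ) ℚ (z : 𝓞 ℚ) = (z : ℚ) := map_intCast (algebraMap (𝓞 ℚ) ℚ) z
    have h' : v.valuation ℚ (algebraMap (𝓞 ℚ) ℚ (z : 𝓞 ℚ)) ≤ 1 := h
    rwa [e] at h'
  have hdvd : ∀ z : ℤ, (q : ℤ) ∣ z → v.valuation ℚ (z : ℚ) < 1 := by
    rintro z ⟨w, rfl⟩
    have e : (((q : ℤ) * w : ℤ) : ℚ) = (w : ℚ) * (q : ℚ) := by push_cast; ring
    rw [e, map_mul]
    exact Pool.Agent.TameArb.mul_lt_one_aux (hint w) hvq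
  refine ⟨v, hvq, ?_, fun x hx => ?_⟩
  · have h3 := h2 (d : ℤ) (by
      intro h4
      exact hqd (by exact_mod_cast h4))
    exact_mod_cast h3
  rcases lt_or_eq_of_le hx with hlt | heq
  · exact ⟨0, hlt⟩
  refine ⟨1, ?_⟩
  have hxe : x * ((x.den : ℤ) : ℚ) = (x.num : ℚ) := by
    have := Rat.mul_den_eq_num x
    exact_mod_cast this
  have hdn : ¬ (q : ℤ) ∣ (x.den : ℤ) := by
    intro hne
    have hlt := hdvd _ hne
    have h4 : v.valuation ℚ (x.num : ℚ) < 1 := by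
      rw [← hxe, map_mul, heq, one_mul]
      exact hlt
    have hn2 : (q : ℤ) ∣ x.num := by
      by_contra hno
      rw [h2 _ hno] at h4
      exact lt_irrefl _ h4
    have h5 : q ∣ x.num.natAbs := Int.natCast_dvd.mp hn2
    have h6 : q ∣ x.den := by exact_mod_cast hne
    have h7 := Nat.dvd_gcd h5 h6
    rw [x.reduced] at h7
    exact hq.one_lt.ne' (Nat.dvd_one.mp h7)
  have hnum : ¬ (q : ℤ) ∣ x.num := by
    intro hne
    have hlt := hdvd _ hne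
    rw [← hxe, map_mul, heq, one_mul, h2 _ hdn] at hlt
    exact lt_irrefl _ hlt
  -- Fermat
  have hferm : ∀ z : ℤ, ¬ (q : ℤ) ∣ z → ((z : ZMod q)) ^ d = 1 := by
    intro z hz
    obtain ⟨m, hm⟩ := h
    have h5 : (z : ZMod q) ≠ 0 := by
      intro h6
      exact hz ((ZMod.intCast_zmod_eq_zero_iff_dvd z q).mp h6)
    rw [hm, pow_mul, ZMod.pow_card_sub_one_eq_one h5, one_pow]
  have hz : (q : ℤ) ∣ x.num ^ d + c * (x.den : ℤ) ^ d := by
    rw [← ZMod.intCast_zmod_eq_zero_iff_dvd]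
    rw [← ZMod.intCast_zmod_eq_zero_iff_dvd] at hqc
    push_cast at hqc ⊢
    have h5 := hferm _ hnum
    have h6 := hferm _ hdn
    push_cast at h6
    rw [h5, h6, mul_one, add_comm]
    exact hqc
  have h9 := hdvd _ hz
  rw [Function.iterate_one]
  show v.valuation ℚ ((X ^ d + C (c : ℚ) : ℚ[X]).eval x) < 1
  rw [eval_add, eval_pow, eval_X, eval_C]
  have e : ((x.num ^ d + c * (x.den : ℤ) ^ d : ℤ) : ℚ) =
      (x ^ d + (c : ℚ)) * (((x.den : ℤ) : ℚ)) ^ d := by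
    rw [Int.cast_add, Int.cast_mul, Int.cast_pow, Int.cast_pow, ← hxe, mul_pow]
    ring
  rw [e, map_mul, map_pow, h2 _ hdn, one_pow, mul_one] at h9
  exact h9

end Pool.Agent.TFS4
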