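import Pool.Agent.Arb.Rat2
import Pool.Agent.NDE.Pol

/-!
# The maps `x ^ d + c` with `d` and `c` odd at the prime two
-/

set_option autoImplicit false

open IsDedekindDomain NumberField Polynomial

namespace Pool.Agent.TFS4

theorem two_reach {d : ℕ} (hd : 2 ≤ d) (ho : Odd d) (c : ℤ) (hc : Odd c) :
    ∃ v : HeightOneSpectrum (𝓞 ℚ), v.valuation ℚ (2 : ℚ) < 1 ∧ v.valuation ℚ (d : ℚ) = 1 ∧
      ∀ x : ℚ, v.valuation ℚ x ≤ 1 →
        ∃ n, v.valuation ℚ ((fun y => (X ^ d + C (c : ℚ) : ℚ[X]).eval y)^[n] x) < 1 := by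
  obtain ⟨v, h1, h2⟩ := Pool.Agent.Arb.exists_at_prime Nat.prime_two
  have hv2 : v.valuation ℚ (2 : ℚ) < 1 := by
    have h3 : v.valuation ℚ ((2 : ℕ) : ℚ) < 1 := by
      rw [h1, ← WithZero.exp_zero, WithZero.exp_lt_exp]
      norm_num
    exact_mod_cast h3
  have hint : ∀ z : ℤ, v.valuation ℚ (z : ℚ) ≤ 1 := by
    intro z
    have h := v.valuation_le_one (K := ℚ) (z : 𝓞 ℚ)
    have e : algebraMap (𝓞 ℚ) ℚ (z : 𝓞 ℚ) = (z : ℚ) := map_intCast (algebraMap (𝓞 ℚ) ℚ) z
    have h' : v.valuation ℚ (algebraMap (𝓞 ℚ) ℚ (z : 𝓞 ℚ)) ≤ 1 := h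
    rwa [e] at h'
  have heven : ∀ z : ℤ, Even z → v.valuation ℚ (z : ℚ) < 1 := by
    rintro z ⟨w, rfl⟩
    have e : ((w + w : ℤ) : ℚ) = (w : ℚ) * 2 := by push_cast; ring
    rw [e, map_mul]
    exact Pool.Agent.TameArb.mul_lt_one_aux (hint w) hv2
  have hodd : ∀ z : ℤ, Odd z → v.valuation ℚ (z : ℚ) = 1 := by
    intro z hz
    apply h2
    intro h
    have : (2 : ℤ) ∣ z := by exact_mod_cast h
    exact (Int.not_even_iff_odd.mpr hz) (even_iff_two_dvd.mpr this)
  refine ⟨v, hv2, ?_, fun x hx => ?_⟩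
  · have h3 := hodd (d : ℤ) (by exact_mod_cast ho)
    exact_mod_cast h3
  -- a point of the residue field with two elements
  rcases lt_or_eq_of_le hx with hlt | heq
  · exact ⟨0, hlt⟩
  refine ⟨1, ?_⟩
  have hden0 : (x.den : ℚ) ≠ 0 := by exact_mod_cast x.den_ne_zero
  have hxe : x * (x.den : ℤ) = (x.num : ℤ) := by
    have := Rat.mul_den_eq_num x
    exact_mod_cast this
  have hdn : Odd (x.den : ℤ) := by
    by_contra hne
    rw [Int.not_odd_iff_even] at hne
    have hlt := heven _ hne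
    have h4 : v.valuation ℚ (x.num : ℚ) < 1 := by
      rw [← hxe, map_mul, heq, one_mul]
      exact hlt
    have hn2 : Even x.num := by
      by_contra hno
      rw [Int.not_even_iff_odd] at hno
      rw [hodd _ hno] at h4
      exact lt_irrefl _ h4
    have h5 : 2 ∣ x.num.natAbs := Int.natCast_dvd.mp (by exact_mod_cast hn2.two_dvd)
    have h6 : 2 ∣ x.den := by exact_mod_cast hne.two_dvd
    have h7 := Nat.dvd_gcd h5 h6
    rw [x.reduced] at h7
    omega
  have hnum : Odd x.num := by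
    by_contra hne
    rw [Int.not_odd_iff_even] at hne
    have hlt := heven _ hne
    rw [← hxe, map_mul, heq, one_mul, hodd _ hdn] at hlt
    exact lt_irrefl _ hlt
  -- `x` is congruent to one
  have hx1 : v.valuation ℚ (x - 1) < 1 := by
    have h8 : Even (x.num - (x.den : ℤ)) := hnum.sub_odd hdn
    have h9 := heven _ h8
    have e : ((x.num - (x.den : ℤ) : ℤ) : ℚ) = (x - 1) * ((x.den : ℤ) : ℚ) := by
      push_cast
      have := Rat.mul_den_eq_num x
      linear_combination -this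
    rw [e, map_mul, hodd _ hdn, mul_one] at h9
    exact h9
  rw [Function.iterate_one]
  show v.valuation ℚ ((X ^ d + C (c : ℚ) : ℚ[X]).eval x) < 1
  rw [eval_add, eval_pow, eval_X, eval_C]
  have e : x ^ d + (c : ℚ) = (x ^ d - 1) + ((1 + c : ℤ) : ℚ) := by push_cast; ring
  rw [e]
  refine Valuation.map_add_lt _ ?_ (heven _ (odd_one.add_odd hc))
  have hpow : ∀ s : ℕ, v.valuation ℚ (x ^ s - 1) < 1 := by
    intro s
    induction s with
    | zero => simp
    | succ s ih =>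
      have e2 : x ^ (s + 1) - 1 = x ^ s * (x - 1) + (x ^ s - 1) := by ring
      rw [e2]
      refine Valuation.map_add_lt _ ?_ ih
      rw [map_mul, map_pow, heq, one_pow, one_mul]
      exact hx1
  exact hpow d

end Pool.Agent.TFS4
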