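import Pool.Agent.TameArb.Iter

/-!
# Local degrees of the iterates of polynomials that are unicritical modulo a place
-/

set_option autoImplicit false

open Polynomial IsDedekindDomain NumberField
open scoped WithZero

namespace Pool.Agent.TFS4

section Dom

variable {κ : Type} [CommRing κ] [IsDomain κ]

/-- the iterates of `a x ^ d + b` near a point -/
theorem ord_iter {a b : κ} (ha : a ≠ 0) {d : ℕ} (hd : 1 ≤ d) (hdκ : (d : κ) ≠ 0) (x : κ) (n : ℕ) :
    ∃ (Q : κ[X]) (z : ℕ), Q.coeff 0 ≠ 0 ∧
      (((C a * X ^ d + C b : κ[X]).comp)^[n] X).comp (X + C x) =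
        C ((fun y => (C a * X ^ d + C b : κ[X]).eval y)^[n] x) + X ^ d ^ z * Q ∧
      (z = 0 → ∀ i < n, (fun y => (C a * X ^ d + C b : κ[X]).eval y)^[i] x ≠ 0) := by
  set f : κ[X] := C a * X ^ d + C b with hf
  induction n with
  | zero =>
    refine ⟨1, 0, by simp, ?_, fun _ i hi => absurd hi (Nat.not_lt_zero i)⟩
    simp [add_comm]
  | succ n ih =>
    obtain ⟨Q, z, hQ, hP, hz⟩ := ih
    set y : κ := (fun y => f.eval y)^[n] x with hy
    have e1 : ((f.comp)^[n + 1] X).comp (X + C x) = f.comp (C y + X ^ d ^ z * Q) := by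
      rw [Function.iterate_succ_apply', comp_assoc, hP]
    have e2 : (fun y => f.eval y)^[n + 1] x = a * y ^ d + b := by
      rw [Function.iterate_succ_apply', ← hy, hf]
      simp
    have e3 : f.comp (C y + X ^ d ^ z * Q) = C a * (C y + X ^ d ^ z * Q) ^ d + C b := by
      rw [hf]
      simp
    have hd0 : 0 < d ^ z := pow_pos hd z
    rcases eq_or_ne y 0 with hy0 | hy0
    · refine ⟨C a * Q ^ d, z + 1, ?_, ?_, fun h => absurd h (Nat.succ_ne_zero z)⟩
      · rw [coeff_C_mul, coeff_zero_eq_eval_zero, eval_pow, ← coeff_zero_eq_eval_zero]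
        exact mul_ne_zero ha (pow_ne_zero d hQ)
      · rw [e1, e2, e3, hy0, C_0, zero_add, zero_pow (by omega), mul_zero, zero_add, mul_pow,
          ← pow_mul, ← pow_succ]
        ring
    · set Y : κ[X] := C y + X ^ d ^ z * Q with hY
      set S : κ[X] := ∑ i ∈ Finset.range d, Y ^ i * C y ^ (d - 1 - i) with hS
      have hgs : S * (Y - C y) = Y ^ d - C y ^ d := (Commute.all Y (C y)).geom_sum₂_mul d
      have hYy : Y - C y = X ^ d ^ z * Q := by rw [hY, add_sub_cancel_left]
      have hY0 : Y.eval 0 = y := by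
        rw [hY, eval_add, eval_C, eval_mul, eval_pow, eval_X, zero_pow hd0.ne', zero_mul, add_zero]
      refine ⟨C a * S * Q, z, ?_, ?_, ?_⟩
      · rw [coeff_zero_eq_eval_zero, eval_mul, eval_mul, eval_C, hS, eval_finsetSum,
          ← coeff_zero_eq_eval_zero]
        have h1 : ∀ i ∈ Finset.range d, (Y ^ i * C y ^ (d - 1 - i)).eval 0 = y ^ (d - 1) := by
          intro i hi
          rw [Finset.mem_range] at hi
          rw [eval_mul, eval_pow, eval_pow, eval_C, hY0, ← pow_add,
            show i + (d - 1 - i) = d - 1 by omega]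
        rw [Finset.sum_congr rfl h1, Finset.sum_const, Finset.card_range, nsmul_eq_mul]
        exact mul_ne_zero (mul_ne_zero ha (mul_ne_zero hdκ (pow_ne_zero _ hy0))) hQ
      · rw [e1, e2, e3]
        have e4 : Y ^ d = C y ^ d + S * (X ^ d ^ z * Q) := by
          rw [← hYy, hgs]; ring
        rw [e4, C_add, C_mul, C_pow]
        ring
      · intro h0 i hi
        rcases Nat.lt_succ_iff_lt_or_eq.mp hi with h | h
        · exact hz h0 i h
        · rw [h]
          exact hy0

end Dom

section Red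

open Pool.Agent.TameArb

variable {K : Type} [Field K] {v : Valuation K ℤᵐ⁰}

theorem map_iter_comp {R S : Type} [CommRing R] [CommRing S] (f : R →+* S) (P : R[X]) (n : ℕ) :
    ((P.comp)^[n] X).map f = ((P.map f).comp)^[n] X := by
  induction n with
  | zero => simp
  | succ n ih =>
    rw [Function.iterate_succ_apply', Function.iterate_succ_apply', Polynomial.map_comp, ih]

theorem map_iter_eval {R S : Type} [CommRing R] [CommRing S] (f : R →+* S) (P : R[X]) (n : ℕ)
    (x : R) : f ((fun y => P.eval y)^[n] x) = (fun y => (P.map f).eval y)^[n] (f x) := by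
  induction n with
  | zero => rfl
  | succ n ih =>
    rw [Function.iterate_succ_apply', Function.iterate_succ_apply', ← ih]
    exact (eval_map_apply f _).symm

/-- **Polynomials that are unicritical modulo a place.** -/
theorem sup_val {φ : K[X]} (hd : 2 ≤ φ.natDegree) (hG : Good v φ)
    (hvd : v (φ.natDegree : K) = 1)
    (hu : ∀ i, 0 < i → i < φ.natDegree → v (φ.coeff i) < 1) {x : K} (hx : v x ≤ 1)
    (h0 : ∃ n, v ((fun y => φ.eval y)^[n] x) < 1)
    (hper : ∃ n, 0 < n ∧ v ((fun y => φ.eval y)^[n] x - x) < 1) :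
    ∃ N e : ℕ, 0 < N ∧ 2 ≤ e ∧ v (e : K) = 1 ∧
      (∀ j < e, v ((((φ.comp)^[N] X).comp (X + C x) - C x).coeff j) < 1) ∧
      v ((((φ.comp)^[N] X).comp (X + C x) - C x).coeff e) = 1 := by
  obtain ⟨φ', hφ'⟩ := exists_lift hG.int
  set r : v.integer →+* (v.integer ⧸ mI v) := Ideal.Quotient.mk (mI v) with hr
  have hrv : ∀ a : v.integer, r a = 0 ↔ v (a : K) < 1 := by
    intro a
    rw [hr, Ideal.Quotient.eq_zero_iff_mem, mem_mI]
  have hco : ∀ i, ((φ'.coeff i : v.integer) : K) = φ.coeff i := by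
    intro i
    rw [← hφ', coeff_map]
    rfl
  set d := φ.natDegree with hdd
  -- the reduction
  have hf : φ'.map r = C (r (φ'.coeff d)) * X ^ d + C (r (φ'.coeff 0)) := by
    ext i
    rw [coeff_map, coeff_add, coeff_C_mul, coeff_X_pow, coeff_C]
    rcases Nat.eq_zero_or_pos i with rfl | hi
    · rw [if_neg (by omega), if_pos rfl, mul_zero, zero_add]
    rcases lt_trichotomy i d with h | h | h
    · rw [if_neg (by omega), if_neg (by omega), mul_zero, add_zero, hrv, hco]
      exact hu i hi h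
    · rw [if_pos h, if_neg (by omega), mul_one, add_zero, h]
    · rw [if_neg (by omega), if_neg (by omega), mul_zero, add_zero, hrv, hco,
        coeff_eq_zero_of_natDegree_lt (by omega), map_zero]
      exact zero_lt_one
  have ha : r (φ'.coeff d) ≠ 0 := by
    intro h
    rw [hrv, hco] at h
    have h1 : v (φ.coeff d) = 1 := hG.lead
    rw [h1] at h
    exact lt_irrefl _ h
  have hdκ : ((d : ℕ) : v.integer ⧸ mI v) ≠ 0 := by
    intro h
    have h1 : r (d : v.integer) = 0 := by rw [map_natCast]; exact h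
    rw [hrv] at h1
    have h2 : ((d : v.integer) : K) = (d : K) := by push_cast; rfl
    rw [h2, hvd] at h1
    exact lt_irrefl _ h1
  set x' : v.integer := ⟨x, hx⟩ with hx'
  have hev : ∀ n, ((((fun y => φ'.eval y)^[n] x') : v.integer) : K) =
      (fun y => φ.eval y)^[n] x := by
    intro n
    have h1 := map_iter_eval v.integer.subtype φ' n x'
    rw [hφ'] at h1
    exact h1
  have hevr : ∀ n, r ((fun y => φ'.eval y)^[n] x') =
      (fun y => (φ'.map r).eval y)^[n] (r x') := fun n => map_iter_eval r φ' n x'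
  obtain ⟨N, hN, hp⟩ := hper
  obtain ⟨m, hm⟩ := h0
  have hper' : Function.IsPeriodicPt (fun y => (φ'.map r).eval y) N (r x') := by
    show (fun y => (φ'.map r).eval y)^[N] (r x') = r x'
    rw [← hevr, ← sub_eq_zero, ← map_sub, hrv]
    push_cast
    rw [hev]
    exact hp
  have hzero : (fun y => (φ'.map r).eval y)^[m % N] (r x') = 0 := by
    rw [hper'.iterate_mod_apply, ← hevr, hrv, hev]
    exact hm
  obtain ⟨Q, z, hQ, hP, hz⟩ := ord_iter (b := r (φ'.coeff 0)) ha (by omega) hdκ (r x') N
  rw [← hf] at hP hz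
  have hz0 : z ≠ 0 := fun h => hz h (m % N) (Nat.mod_lt _ hN) hzero
  have hPe : ((((φ.comp)^[N] X).comp (X + C x) - C x)) =
      ((((φ'.comp)^[N] X).comp (X + C x') - C x')).map v.integer.subtype := by
    rw [Polynomial.map_sub, Polynomial.map_comp, map_iter_comp, hφ', Polynomial.map_add, map_X,
      map_C]
    rfl
  have hPr : ((((φ'.comp)^[N] X).comp (X + C x') - C x')).map r = X ^ d ^ z * Q := by
    rw [Polynomial.map_sub, Polynomial.map_comp, map_iter_comp, Polynomial.map_add, map_X,
      map_C, hP]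
    have h1 : (fun y => (φ'.map r).eval y)^[N] (r x') = r x' := hper'
    rw [h1, add_sub_cancel_left]
  have hc : ∀ j, v ((((φ.comp)^[N] X).comp (X + C x) - C x).coeff j) < 1 ↔
      (X ^ d ^ z * Q).coeff j = 0 := by
    intro j
    rw [← hPr, coeff_map, hrv, hPe, coeff_map]
    rfl
  have hle : ∀ j, v ((((φ.comp)^[N] X).comp (X + C x) - C x).coeff j) ≤ 1 := by
    intro j
    rw [hPe, coeff_map]
    exact (((((φ'.comp)^[N] X).comp (X + C x') - C x')).coeff j).2
  refine ⟨N, d ^ z, hN, ?_, ?_, ?_, ?_⟩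
  · calc 2 ≤ d := hd
      _ ≤ d ^ z := Nat.le_self_pow hz0 d
  · push_cast
    rw [map_pow, hvd, one_pow]
  · intro j hj
    rw [hc, coeff_X_pow_mul', if_neg (by omega)]
  · apply le_antisymm (hle _)
    rw [← not_lt, hc, coeff_X_pow_mul', if_pos le_rfl, Nat.sub_self]
    exact hQ

end Red

/-- **Polynomials that are unicritical modulo a prime**, all residue cycles through `0`. -/
theorem sup_uni {K : Type} [Field K] [NumberField K] {φ : K[X]} (hd : 2 ≤ φ.natDegree)
    (v : HeightOneSpectrum (𝓞 K)) (hG : TameArb.Good (v.valuation K) φ)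
    (hvd : v.valuation K (φ.natDegree : K) = 1)
    (hu : ∀ i, 0 < i → i < φ.natDegree → v.valuation K (φ.coeff i) < 1)
    (h0 : ∀ x : K, v.valuation K x ≤ 1 →
      ∃ n, v.valuation K ((fun y => φ.eval y)^[n] x) < 1) :
    ∀ x : K, v.valuation K x ≤ 1 →
      (∃ n, 0 < n ∧ v.valuation K ((fun y => φ.eval y)^[n] x - x) < 1) →
      ∃ N e : ℕ, 0 < N ∧ 2 ≤ e ∧ v.valuation K (e : K) = 1 ∧
        (∀ j < e, v.valuation K ((((φ.comp)^[N] X).comp (X + C x) - C x).coeff j) < 1) ∧
        v.valuation K ((((φ.comp)^[N] X).comp (X + C x) - C x).coeff e) = 1 :=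
  fun x hx hper => sup_val hd hG hvd hu hx (h0 x hx) hper

end Pool.Agent.TFS4
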